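import Mathlib
import Pool.Agent.X240.Rig.Bounds

/-!
# Generic rigidity in space: formulas with determinant gates

The input is a list of `3 n - 6` distinct edges of a graph with `n` vertices (`Simple`), that is, the
number of edges of the minimally rigid graphs; the items of the input are the edges, given as pairs
of vertices. The question (`rigid`) is whether the graph is generically rigid in space, that is,
whether some (equivalently, almost every) realization in `ℝ ^ 3` is infinitesimally rigid
(`GenRigid 3`). It can be answered by the rank of one large matrix, the rigidity matrix of a fixed
generic realization, whose rows depend on one edge each; so formulas with determinants are the natural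
model.

A formula (`Fml`) is built from real constants, arbitrary real functions of one edge, and arbitrary
real functions of `w` words of `c` bits, where each word is an arbitrary function of one edge, by the
gates

* `pos`: is the value positive? (`1` or `0`),
* `sym`: any fan-in, any real function of the number of positive inputs,
* `det`: the determinant of a real matrix of any order whose entries are formulas (sums and products
  are determinants of order two),
* `reg`: is the matrix over an arbitrary field `K`, of any order, whose entry `(a, b)` is `c' a b` or
  `c a b`, according to whether the formula `(a, b)` is positive or not, regular? (`1` or `0`).

The size is the number of the leaves which are not constants, plus the number of wires which lead to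
gates `sym`; constants and the orders of the matrices are free. The formula accepts if its value is
positive.

We show for `n ≥ 2048` that random formulas of size at most `s` which decide rigidity with error
probability at most `1 / 3` need `n ^ 3 ≤ 14 * 10 ^ 5 * w ^ 2 (c w + log₂ n) s ^ 2`, that is, size of
the order `n ^ (3 / 2) / √(log n)` if `w` is bounded and `c` is at most of the order `log n`, although
the input has only `3 n - 6` items. So rigidity is not the question whether a matrix of this kind is
regular in which each edge occurs only a few times, even if constants are free.

Proof. Each edge can ask for `n - 5` bits `z t` which are stored in the others: two poles are adjacent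
and are joined to all vertices, the vertex `d` is joined to the centre `c_0`, the vertex `a_t` is
joined to the centre `c_(z t)`, and the question is the edge `a_t d`. The graph has `3 n - 6` edges,
and the part without the poles is connected if and only if `z t = 1`. If it is connected then the
graph is rigid, and otherwise the two poles separate it and it has a hinge. If `r` leaves see an edge,
then the other parts of the formula enter a determinant with `r` live entries only through
`O (r ^ 2)` numbers (Schur complement), so `2 ^ O (r ^ 2 (c w + log n))` functions of the edge arise
when the others are fixed (`Pool.Agent.Y649.DG.bound`).
-/

set_option autoImplicit false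

namespace Pool.Agent.Results.MP_37c7bf_co.DeterminantGates

open Pool.Agent.TH697.Form (IsProb)
open Pool.Agent.TH697.Row (ApproximatesOn)
open Pool.Agent.Y649.DG (Fml)
open Pool.Agent.X240.Gen (Simple)
open Pool.Agent.X240.Rig (rigid)

theorem result : ∀ n c w : ℕ, 2048 ≤ n → 1 ≤ w →
    ∀ (Ω : Type) [Fintype Ω] (μ : Ω → ℝ), IsProb μ →
      ∀ (s : ℕ) (F : Ω → Fml (Fin (3 * n - 6)) (fun _ => Fin n × Fin n) w (2 ^ c)),
        (∀ ω, (F ω).size ≤ s) →
        ApproximatesOn μ (fun ω => (F ω).accepts) Simple rigid →
        (n : ℝ) ^ 3 ≤ 1400000 * w ^ 2 * (c * w + Real.logb 2 n) * s ^ 2 :=
  fun _ _ _ hn hw _ _ μ hμ s F hs hF => Pool.Agent.X240.Rig.det_bound hn hw μ hμ s F hs hF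

end Pool.Agent.Results.MP_37c7bf_co.DeterminantGates
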