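import Mathlib
import Pool.Agent.X240.Rig.Bounds

/-!
# Generic rigidity in space: programs and networks which test real formulas

The input is a list of `3 n - 6` distinct edges of a graph with `n` vertices (`Simple`), that is, the
number of edges of the minimally rigid graphs; the items of the input are the edges, given as pairs
of vertices. The question (`rigid`) is whether the graph is generically rigid in space, that is,
whether some (equivalently, almost every) realization in `ℝ ^ 3` is infinitesimally rigid
(`GenRigid 3`).

A real formula (`Fml`) computes with exact real numbers: it is built from real constants, arbitrary
real functions of one edge, and arbitrary real functions of `w` words of `c` bits, where each word is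
an arbitrary function of one edge, by sums, products, sign tests `pos` (with the values `0`, `1`), and
gates `sym` of any fan-in whose value is an arbitrary real function of the number of positive inputs;
these gates can be nested in any way. It accepts if its value is positive. Its size is the number of
leaves (constants are free) plus the number of wires which lead to gates `sym`. In a branching
program (`Program`) every inner node tests whether a real formula accepts; its size is the number of
inner nodes plus the sizes of all these formulas. A network (`Net`) is a nondeterministic branching
program, possibly with cycles: nodes, free edges, and edges which are guarded by real formulas; it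
accepts if some path leads from the start node to the end node over edges which are open. Its size is
the number of guarded edges plus the sizes of their formulas; nodes and free edges are not counted.

We show for `n ≥ 2048` that

* random branching programs of size at most `s` which decide rigidity with error probability at most
  `1 / 3` need `n ^ 2 ≤ 700 w (c w + log₂ n) s`;
* random networks (first the random choice, then the guesses) of size at most `s` which decide
  rigidity, or its negation, with error probability at most `1 / 3` need
  `n ^ 2 ≤ 1400 w (√n + 61 log₂ n + 2 c w) s`, that is, size of the order `n ^ (3 / 2)`.

Proof. Each edge can ask for `n - 5` bits `z t` which are stored in the others: two poles are adjacent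
and are joined to all vertices, the vertex `d` is joined to the centre `c_0`, the vertex `a_t` is
joined to the centre `c_(z t)`, and the question is the edge `a_t d`. The graph has `3 n - 6` edges,
and the part without the poles is connected if and only if `z t = 1`. If it is connected then the
graph is rigid (it is built from a triangle by adding vertices of degree three), and otherwise the
two poles separate it and it has a hinge. We count the functions of one edge which arise when the
others are fixed (Nechiporuk's method, `Pool.Agent.Y638.RF`).
-/

set_option autoImplicit false

namespace Pool.Agent.Results.MP_37c7bf_co.RealPrograms

open Pool.Agent.TH697.Form (IsProb)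
open Pool.Agent.TH697.Row (ApproximatesOn)
open Pool.Agent.Y638.RF (Program Net)
open Pool.Agent.X240.Gen (Simple)
open Pool.Agent.X240.Rig (rigid)

theorem result : ∀ n c w : ℕ, 2048 ≤ n → 1 ≤ w →
    ∀ (Ω : Type) [Fintype Ω] (μ : Ω → ℝ), IsProb μ →
      (∀ (s : ℕ) (P : Ω → Program (Fin (3 * n - 6)) (fun _ => Fin n × Fin n) w (2 ^ c) s),
        ApproximatesOn μ (fun ω => (P ω).eval) Simple rigid →
        (n : ℝ) ^ 2 ≤ 700 * w * (c * w + Real.logb 2 n) * s) ∧
      (∀ (s : ℕ) (N : Ω → Net (Fin (3 * n - 6)) (fun _ => Fin n × Fin n) w (2 ^ c)),
        (∀ ω, (N ω).size ≤ s) →
        (ApproximatesOn μ (fun ω => (N ω).eval) Simple rigid ∨
          ApproximatesOn μ (fun ω x => !(N ω).eval x) Simple rigid) →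
        (n : ℝ) ^ 2 ≤ 1400 * w * (√n + 61 * Real.logb 2 n + 2 * c * w) * s) :=
  fun _ _ _ hn hw _ _ μ hμ =>
    ⟨fun s P hP => Pool.Agent.X240.Rig.program_bound hn hw μ hμ s P hP,
      fun s N hs hN => Pool.Agent.X240.Rig.net_bound hn hw μ hμ s N hs hN⟩

end Pool.Agent.Results.MP_37c7bf_co.RealPrograms
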