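import Pool.Agent.X240.TW.Rig

/-!
# Generic rigidity in space by word circuits: number of reads and treewidth

The input is the list of the `3 n - 6` edges of a graph with `n` vertices; is it generically rigid in
`R ^ 3`? We consider straight-line programs for this question (`WCirc`): each of the gates holds a word
(an element of a finite set), which may be any value that is allowed by an ARBITRARY relation to at
most `κ` edges of the list and words of earlier gates (a deterministic gate computes an arbitrary
function). The relevant parameters are

* the number of reads `C.reads`: the number of wires from items of the list to gates; this is a lower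
  bound for the running time,
* the treewidth `θ` of the graph of the gates (whose edges are the wires between gates; the items are
  deleted). A program with few registers has small treewidth, but a circuit of small treewidth may
  use arbitrarily many words at the same time.

**Result.** If a circuit with `C.reads ≤ r (3 n - 6)` and words of `w` bits decides the question (for
all lists of different edges), then

`2 ^ ((3 n - 6) / 2 ^ (24 r + 1)) ≤ 2 ^ (w · 10000 r² (κ + 1) (θ + 1)) + 1`.

So, with `(θ + 1) w ≤ n ^ (1 - ε)`, the circuit has at least `(ε / 20) n log₂ n` reads: a test for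
generic rigidity takes more than linear time on these programs. This holds for nondeterministic
circuits which accept the rigid graphs, and for unambiguous, in particular deterministic, circuits
for the other answer.

**Proof.** By the theorem on word circuits of the library (`Pool.Agent.Y631.Wc.bounds`) there are sets
`A` and `E` of `k = n / 2 ^ O (r)` places of the list such that a division of the circuit into two parts
separates the reads of `A` from those of `E`. All graphs have two adjacent vertices which are joined to
all other vertices; such a graph with `3 n - 6` edges is rigid iff the graph of the other vertices is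
connected (coning, and 3-connectivity). The graph of the other vertices has edges `u_j c`, the edges
`u_j p_(j, a_j)` at the places in `A` and `c p_(j, b_j)` at the places in `E`; it is connected iff
`a_j ≠ b_j` for all `j`.
-/

set_option autoImplicit false

namespace Pool.Agent.Results.MP_37c7bf_co.TreewidthTimesReads

open Pool.Agent.Y631.Wc
open Pool.Agent.X240.Gen (Simple)
open Pool.Agent.X240.Rig (rigid)

/-- (A) Let `C` be a word circuit for lists of `3 n - 6` edges of graphs with `n` vertices, whose gates
have fan-in at most `κ` and values in `Z`, with at most `r (3 n - 6)` reads, and of treewidth at most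
`θ`. Let `2 ≤ L` and `|Z| ≤ L`.

1. If `C` (nondeterministic) accepts exactly the generically rigid graphs then
   `2 ^ ((3 n - 6) / 2 ^ (24 r + 1)) ≤ L ^ (10000 r² (κ + 1) (θ + 1))`.
2. If `C` has at most one accepting computation for each input (which holds if the gates compute
   functions) and accepts exactly the other graphs then
   `2 ^ ((3 n - 6) / 2 ^ (24 r + 1)) ≤ L ^ (10000 r² (κ + 1) (θ + 1)) + 1`.

The circuit has to be correct only for lists of different edges without loops (`Simple`).

(B) For all `κ` and `0 < ε ≤ 1` and all large `n`: each such circuit (of the first or of the second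
kind) of fan-in `κ` with words of `w` bits and of treewidth `θ` with `(θ + 1) w ≤ n ^ (1 - ε)` has at
least `(ε / 20) n log₂ n` reads. -/
theorem result :
    (∀ {r κ θ n L : ℕ} (_ : 1 ≤ r) (_ : 2 ≤ L) {Z : Type} [Fintype Z] (_ : Fintype.card Z ≤ L)
      (C : WCirc (Fin (3 * n - 6)) (Fin n × Fin n) Z) (_ : C.FanIn κ) (_ : C.TreewidthLE θ)
      (_ : C.reads ≤ r * (3 * n - 6)),
      ((∀ x, Simple x → (C.Accepts x ↔ rigid x = true)) →
        2 ^ ((3 * n - 6) / 2 ^ (24 * r + 1)) ≤ L ^ (10000 * r ^ 2 * (κ + 1) * (θ + 1))) ∧
      (C.Unambiguous → (∀ x, Simple x → (C.Accepts x ↔ rigid x = false)) →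
        2 ^ ((3 * n - 6) / 2 ^ (24 * r + 1)) ≤ L ^ (10000 * r ^ 2 * (κ + 1) * (θ + 1)) + 1)) ∧
    ∀ (κ : ℕ) (ε : ℝ), 0 < ε → ε ≤ 1 → ∃ n₀ : ℕ, ∀ n ≥ n₀, ∀ (Z : Type) [Fintype Z] (w : ℕ),
      1 ≤ w → Fintype.card Z ≤ 2 ^ w →
      ∀ (C : WCirc (Fin (3 * n - 6)) (Fin n × Fin n) Z) (θ : ℕ), C.FanIn κ → C.TreewidthLE θ →
        (((θ + 1) * w : ℕ) : ℝ) ≤ (n : ℝ) ^ (1 - ε) →
        ((∀ x, Simple x → (C.Accepts x ↔ rigid x = true)) ∨
          (C.Unambiguous ∧ ∀ x, Simple x → (C.Accepts x ↔ rigid x = false))) →
        ε / 20 * (n * Real.logb 2 n) ≤ C.reads :=
  ⟨fun hr hL _ _ hZ C hκ hθ hR => Pool.Agent.X240.TW.Rig.rig_bounds hr hL hZ C hκ hθ hR,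
    Pool.Agent.X240.TW.Rig.rig_superlinear⟩

end Pool.Agent.Results.MP_37c7bf_co.TreewidthTimesReads
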