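import Mathlib
import Pool.Agent.X240.Rig.Bounds

/-!
# Generic rigidity in space: programs which test integral (min, max) formulas

The input is a list of `3 n - 6` distinct edges of a graph with `n` vertices (`Simple`), that is, the
number of edges of the minimally rigid graphs; the items of the input are the edges, given as pairs
of vertices. The question (`rigid`) is whether the graph is generically rigid in space, that is,
whether some (equivalently, almost every) realization in `ℝ ^ 3` is infinitesimally rigid
(`GenRigid 3`).

The formulas (`Fml`) compute with integers: they are built from constants, arbitrary integral
functions of one edge, and arbitrary integral functions of `w` words of `c` bits, where each word is an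
arbitrary function of one edge, by sums, products, maxima, minima, sign tests `pos` (with the values
`0`, `1`), and gates `sym` of any fan-in whose value is an arbitrary function of the number of positive
inputs; for all lists of distinct edges the absolute values of all subformulas are at most `2 ^ v`. A
formula accepts if its value is positive. Its size is the number of leaves (constants are free) plus
the number of wires which lead to gates `sym`. In a branching program (`Program`) every inner node
tests whether a formula accepts; its size is the number of inner nodes plus the sizes of all these
formulas.

We show for `n ≥ 2048` that random branching programs of size at most `s` which decide rigidity with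
error probability at most `1 / 3` need `n ^ 2 ≤ 250 w (v + c w + log₂ n) s`. So computation with words
of `O (log n)` bits needs quadratic size, up to a logarithm.

Proof. Each edge can ask for `n - 5` bits `z t` which are stored in the others: two poles are adjacent
and are joined to all vertices, the vertex `d` is joined to the centre `c_0`, the vertex `a_t` is
joined to the centre `c_(z t)`, and the question is the edge `a_t d`. The graph has `3 n - 6` edges,
and the part without the poles is connected if and only if `z t = 1`. If it is connected then the
graph is rigid, and otherwise the two poles separate it and it has a hinge. We count the functions of
one edge which arise when the others are fixed: between two leaves which see it the other parts of the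
formula act by a clamped affine function or a function of a threshold test, which is given by `O (v)`
bits (`Pool.Agent.Y638.WF`).
-/

set_option autoImplicit false

namespace Pool.Agent.Results.MP_37c7bf_co.WordPrograms

open Pool.Agent.TH697.Form (IsProb)
open Pool.Agent.TH697.Row (ApproximatesOn)
open Pool.Agent.Y638.WF (Program)
open Pool.Agent.X240.Gen (Simple)
open Pool.Agent.X240.Rig (rigid)

theorem result : ∀ n c w v : ℕ, 2048 ≤ n → 1 ≤ w →
    ∀ (Ω : Type) [Fintype Ω] (μ : Ω → ℝ), IsProb μ →
      ∀ (s : ℕ) (P : Ω → Program (Fin (3 * n - 6)) (fun _ => Fin n × Fin n) w (2 ^ c) (2 ^ v)
          Simple s),
        ApproximatesOn μ (fun ω => (P ω).eval) Simple rigid →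
        (n : ℝ) ^ 2 ≤ 250 * w * (v + c * w + Real.logb 2 n) * s :=
  fun _ _ _ _ hn hw _ _ μ hμ s P hP => Pool.Agent.X240.Rig.word_bound hn hw μ hμ s P hP

end Pool.Agent.Results.MP_37c7bf_co.WordPrograms
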